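import Pool.Agent.helper4.RC.Centres

/-! MP_e02c34_co : list-recolouring graphs at minimum degree three have linear diameter.

For every finite connected graph `G` of minimum degree at least three and every list-assignment
`L` with `|L(v)| ≥ deg(v) + 1` for all `v` and `|L(w)| ≥ deg(w) + 2` for some `w`, the
`L`-recolouring graph is connected and has diameter at most `159 n`. -/

namespace Pool.Agent.Results.MP_e02c34_co.LinearDiameter

universe u v

/-- `φ` is an `L`-colouring of `G`: every vertex gets a colour of its list, and adjacent vertices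
get different colours. -/
def IsListColouring {V : Type u} {κ : Type v} (G : SimpleGraph V) (L : V → Finset κ)
    (φ : V → κ) : Prop :=
  (∀ v, φ v ∈ L v) ∧ ∀ u v, G.Adj u v → φ u ≠ φ v

/-- The `L`-recolouring graph of `G`: its vertices are the `L`-colourings of `G`, and two of them
are adjacent when they differ at exactly one vertex of `G`. -/
def recolouringGraph {V : Type u} {κ : Type v} (G : SimpleGraph V) (L : V → Finset κ) :
    SimpleGraph {φ : V → κ // IsListColouring G L φ} where
  Adj φ ψ := ∃! v, φ.1 v ≠ ψ.1 v
  symm := ⟨fun φ ψ h => by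
    obtain ⟨v, hv, hv'⟩ := h
    exact ⟨v, hv.symm, fun w hw => hv' w hw.symm⟩⟩
  loopless := ⟨fun φ h => by
    obtain ⟨v, hv, _⟩ := h
    exact hv rfl⟩

theorem exists_colouring {V : Type u} {κ : Type v} [Fintype V] (G : SimpleGraph V)
    [DecidableRel G.Adj] (L : V → Finset κ) (hcard : ∀ v, G.degree v + 1 ≤ (L v).card) :
    ∃ φ, IsListColouring G L φ := by
  classical
  have key : ∀ S : Finset V, ∃ φ : V → κ, (∀ v, φ v ∈ L v) ∧
      ∀ u ∈ S, ∀ v ∈ S, G.Adj u v → φ u ≠ φ v := by
    intro S
    induction S using Finset.induction_on with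
    | empty =>
      have hne : ∀ v, (L v).Nonempty := fun v => by
        rw [← Finset.card_pos]; have := hcard v; omega
      exact ⟨fun v => (hne v).choose, fun v => (hne v).choose_spec, by simp⟩
    | insert x S hx ih =>
      obtain ⟨φ, h1, h2⟩ := ih
      have h3 : ∃ c ∈ L x, c ∉ (G.neighborFinset x).image φ := by
        by_contra hcon
        push Not at hcon
        have h4 := Finset.card_le_card (s := L x) (t := (G.neighborFinset x).image φ) hcon
        have h5 : ((G.neighborFinset x).image φ).card ≤ G.degree x := by
          rw [← SimpleGraph.card_neighborFinset_eq_degree]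
          exact Finset.card_image_le
        have := hcard x
        omega
      obtain ⟨c, hc, hc2⟩ := h3
      have hc3 : ∀ w, G.Adj x w → φ w ≠ c := fun w hw e =>
        hc2 (Finset.mem_image.2 ⟨w, by simpa using hw, e⟩)
      refine ⟨Function.update φ x c, ?_, ?_⟩
      · intro v
        by_cases hv : v = x
        · subst hv; rw [Function.update_self]; exact hc
        · rw [Function.update_of_ne hv]; exact h1 v
      · intro a ha b hb hab
        have hne := G.ne_of_adj hab
        by_cases hax : a = x
        · subst hax
          rw [Function.update_self, Function.update_of_ne hne.symm]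
          exact fun e => hc3 b hab e.symm
        · by_cases hbx : b = x
          · subst hbx
            rw [Function.update_self, Function.update_of_ne hne]
            exact hc3 a hab.symm
          · rw [Function.update_of_ne hax, Function.update_of_ne hbx]
            exact h2 a (Finset.mem_of_mem_insert_of_ne ha hax) b
              (Finset.mem_of_mem_insert_of_ne hb hbx) hab
  obtain ⟨φ, h1, h2⟩ := key Finset.univ
  exact ⟨φ, h1, fun a b hab => h2 a (Finset.mem_univ _) b (Finset.mem_univ _) hab⟩

theorem edist_le_of_reach {V : Type u} {κ : Type v} [DecidableEq V] (G : SimpleGraph V)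
    (L : V → Finset κ) {n : ℕ} {φ ψ : V → κ} (h : RC.Reach G L n φ ψ)
    (hφ : IsListColouring G L φ) (hψ : IsListColouring G L ψ) :
    (recolouringGraph G L).edist ⟨φ, hφ⟩ ⟨ψ, hψ⟩ ≤ n := by
  induction h with
  | refl n h => simp
  | @step n φ ψ v x h hc ih =>
    have h1 := ih hφ h.right_col
    have h2 : (recolouringGraph G L).edist ⟨ψ, h.right_col⟩
        ⟨Function.update ψ v x, hψ⟩ ≤ 1 := by
      rw [SimpleGraph.edist_le_one_iff_adj_or_eq]
      by_cases hx : x = ψ v
      · right
        apply Subtype.ext
        simp [hx]
      · left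
        refine ⟨v, by simpa using Ne.symm hx, fun w hw => ?_⟩
        by_contra hwv
        exact hw (by simp [Function.update_of_ne hwv])
    refine ((recolouringGraph G L).edist_triangle (v := ⟨ψ, h.right_col⟩)).trans ?_
    push_cast
    exact add_le_add h1 h2

/-- For every finite connected graph `G` with minimum degree at least three and every
list-assignment `L` with `|L(v)| ≥ deg(v) + 1` for all `v` and `|L(w)| ≥ deg(w) + 2` for some `w`,
the `L`-recolouring graph is connected and its diameter is at most `159 |V(G)|`. -/
theorem result {V : Type u} {κ : Type v} [Fintype V] (G : SimpleGraph V) [DecidableRel G.Adj]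
    (L : V → Finset κ) (hG : G.Connected) (hδ : ∀ v, 3 ≤ G.degree v)
    (hL : ∀ v, G.degree v + 1 ≤ (L v).card) (hw : ∃ w, G.degree w + 2 ≤ (L w).card) :
    (recolouringGraph G L).Connected ∧
      (recolouringGraph G L).ediam ≤ ((159 * Fintype.card V : ℕ) : ℕ∞) ∧
      (recolouringGraph G L).diam ≤ 159 * Fintype.card V := by
  classical
  obtain ⟨w, hw⟩ := hw
  have hbound : ∀ φ ψ, (recolouringGraph G L).edist φ ψ ≤ ((159 * Fintype.card V : ℕ) : ℕ∞) := by
    rintro ⟨φ, hφ⟩ ⟨ψ, hψ⟩
    exact edist_le_of_reach G L (RC.linear_bound hG hL hδ hw hφ hψ) hφ hψ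
  have hediam : (recolouringGraph G L).ediam ≤ ((159 * Fintype.card V : ℕ) : ℕ∞) :=
    SimpleGraph.ediam_le_of_edist_le hbound
  obtain ⟨φ₀, hφ₀⟩ := exists_colouring G L hL
  have : Nonempty {φ : V → κ // IsListColouring G L φ} := ⟨⟨φ₀, hφ₀⟩⟩
  refine ⟨⟨fun φ ψ => ?_⟩, hediam, ?_⟩
  · exact SimpleGraph.reachable_of_edist_ne_top
      (ne_top_of_le_ne_top (ENat.natCast_ne_top _) (hbound φ ψ))
  · exact ENat.toNat_le_of_le_natCast hediam

end Pool.Agent.Results.MP_e02c34_co.LinearDiameter
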